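import Mathlib
import Pool.Agent.K9h9.CB.Taylor

/-!
# Polynomials with small coefficients
-/

set_option autoImplicit false

namespace Pool.Agent.K9h9.PB

open Finset Polynomial

/-- a non-zero polynomial with coefficients less than `m` does not vanish at `m` -/
lemma eval_ne_zero_of_coeff_lt {G : ℤ[X]} {m : ℕ} (hG : G ≠ 0) (h : ∀ i, |G.coeff i| < m) :
    G.eval (m : ℤ) ≠ 0 := by
  intro h0
  have key : ∀ i, G.coeff i = 0 := by
    intro i
    induction i using Nat.strong_induction_on with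
    | _ i ih =>
      -- `m ^ (i + 1)` divides the value minus the first terms
      have hX : (X : ℤ[X]) ^ i ∣ G := by
        rw [X_pow_dvd_iff]
        intro j hj
        exact ih j hj
      obtain ⟨Q, hQ⟩ := hX
      have hm0 : (m : ℤ) ≠ 0 := by
        intro hm
        have := h 0
        rw [hm] at this
        exact absurd this (not_lt.mpr (abs_nonneg _))
      have h1 : (m : ℤ) ^ i * Q.eval (m : ℤ) = 0 := by
        rw [hQ, eval_mul, eval_pow, eval_X] at h0
        exact h0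
      have h2 : Q.eval (m : ℤ) = 0 := (mul_eq_zero.mp h1).resolve_left (pow_ne_zero _ hm0)
      have h3 : G.coeff i = Q.coeff 0 := by
        rw [hQ]
        have := coeff_X_pow_mul Q i 0
        rwa [zero_add] at this
      have h4 : (m : ℤ) ∣ Q.coeff 0 := by
        have h5 : (X - C (m : ℤ)) ∣ Q := dvd_iff_isRoot.mpr h2
        obtain ⟨S, hS⟩ := h5
        rw [hS]
        rw [mul_coeff_zero]
        simp
      rw [h3]
      apply Int.eq_zero_of_abs_lt_dvd h4
      rw [← h3]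
      exact h i
  apply hG
  ext i
  rw [key i, coeff_zero]

lemma sum_range_coeff_mul_le {F G : ℤ[X]} {a W : ℤ} (ha : 0 ≤ a) (hF : ∀ i, |F.coeff i| ≤ a)
    (hG : ∀ N, ∑ i ∈ range N, |G.coeff i| ≤ W) (k : ℕ) : |(F * G).coeff k| ≤ a * W := by
  rw [coeff_mul]
  refine (abs_sum_le_sum_abs _ _).trans ?_
  calc ∑ x ∈ antidiagonal k, |F.coeff x.1 * G.coeff x.2| ≤ ∑ x ∈ antidiagonal k, a * |G.coeff x.2| := by
        refine sum_le_sum ?_
        intro x _
        rw [abs_mul]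
        exact mul_le_mul_of_nonneg_right (hF _) (abs_nonneg _)
    _ = a * ∑ x ∈ antidiagonal k, |G.coeff x.2| := by rw [mul_sum]
    _ = a * ∑ i ∈ range (k + 1), |G.coeff i| := by
        congr 1
        rw [← Finset.Nat.sum_antidiagonal_swap]
        exact Finset.Nat.sum_antidiagonal_eq_sum_range_succ (fun i _ => |G.coeff i|) k
    _ ≤ a * W := mul_le_mul_of_nonneg_left (hG _) ha

lemma coeff_pow_le {G : ℤ[X]} {W : ℤ} (hG : ∀ N, ∑ i ∈ range N, |G.coeff i| ≤ W) (n k : ℕ) :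
    |(G ^ n).coeff k| ≤ W ^ n := by
  have hW0 : 0 ≤ W := by simpa using hG 0
  induction n generalizing k with
  | zero =>
    rw [pow_zero, pow_zero, coeff_one]
    split_ifs <;> simp
  | succ n ih =>
    rw [pow_succ, pow_succ]
    exact sum_range_coeff_mul_le (by positivity) ih hG k

/-- Mason-Stothers: no identity `B ^ l = c (s X ^ P + F ^ Q)`. -/
lemma stothers {F B : ℤ[X]} {c s : ℤ} {l P Q : ℕ} (hl : 2 ≤ l) (hlQ : ¬ l ∣ Q) (hP : 1 ≤ P) (hQ : 1 ≤ Q)
    (hc : c ≠ 0) (hs : s ≠ 0) (hF0 : F.coeff 0 = 1) (hFd : 1 ≤ F.natDegree)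
    (hcond : 2 ≤ Q ∨ l * F.natDegree < (l - 1) * P) (h : B ^ l = C c * (C s * X ^ P + F ^ Q)) : False := by
  classical
  obtain ⟨φ, hφ⟩ : ∃ φ : ℤ[X] → ℚ[X], φ = fun G => G.map (Int.castRingHom ℚ) := ⟨_, rfl⟩
  have hinj : Function.Injective (Int.castRingHom ℚ) := Int.cast_injective
  have hFne : F ≠ 0 := by
    intro h0
    rw [h0] at hF0
    simp at hF0
  have hcop0 : IsCoprime (X : ℚ[X]) (φ F) := by
    refine ⟨-(φ F.divX), 1, ?_⟩
    have h1 := X_mul_divX_add F
    rw [hF0] at h1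
    have h2 : φ F = X * φ F.divX + 1 := by
      conv_lhs => rw [← h1]
      rw [hφ]
      simp
    rw [h2]
    ring
  have heq : (φ B) ^ l = C (c : ℚ) * (C (s : ℚ) * X ^ P + (φ F) ^ Q) := by
    have h1 := congrArg φ h
    rw [hφ] at h1 ⊢
    simp only [Polynomial.map_pow, Polynomial.map_mul, Polynomial.map_add, map_C, map_X] at h1
    exact h1
  have hcQ : (c : ℚ) ≠ 0 := by exact_mod_cast hc
  have hsQ : (s : ℚ) ≠ 0 := by exact_mod_cast hs
  have hφF : φ F ≠ 0 := by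
    rw [hφ]
    exact (Polynomial.map_ne_zero_iff hinj).mpr hFne
  have hFdeg : (φ F).natDegree = F.natDegree := by
    rw [hφ]
    exact natDegree_map_eq_of_injective hinj F
  -- `B` is not zero
  have hB : φ B ≠ 0 := by
    intro h0
    rw [h0, zero_pow (by omega), eq_comm, mul_eq_zero] at heq
    rcases heq with h1 | h1
    · rw [C_eq_zero] at h1
      exact hcQ h1
    · have h2 := congrArg (eval 0) h1
      simp only [eval_add, eval_mul, eval_C, eval_pow, eval_X, eval_zero] at h2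
      rw [zero_pow (by omega), mul_zero, zero_add] at h2
      have h3 : eval 0 (φ F) = 1 := by
        rw [← coeff_zero_eq_eval_zero, hφ]
        simp [hF0]
      rw [h3, one_pow] at h2
      exact one_ne_zero h2
  have ha : (C ((c : ℚ) * s) * X ^ P : ℚ[X]) ≠ 0 := by
    apply mul_ne_zero
    · rw [Ne, C_eq_zero]
      exact mul_ne_zero hcQ hsQ
    · exact pow_ne_zero _ X_ne_zero
  have hb : (C (c : ℚ) * (φ F) ^ Q : ℚ[X]) ≠ 0 := by
    apply mul_ne_zero
    · rw [Ne, C_eq_zero]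
      exact hcQ
    · exact pow_ne_zero _ hφF
  have hc' : (-(φ B) ^ l : ℚ[X]) ≠ 0 := neg_ne_zero.mpr (pow_ne_zero _ hB)
  have hsum : (C ((c : ℚ) * s) * X ^ P : ℚ[X]) + C (c : ℚ) * (φ F) ^ Q + (-(φ B) ^ l) = 0 := by
    rw [heq, C_mul]
    ring
  have hu1 : IsUnit (C ((c : ℚ) * s) : ℚ[X]) := isUnit_C.mpr (mul_ne_zero hcQ hsQ).isUnit
  have hu2 : IsUnit (C (c : ℚ) : ℚ[X]) := isUnit_C.mpr hcQ.isUnit
  have hcop : IsCoprime (C ((c : ℚ) * s) * X ^ P : ℚ[X]) (C (c : ℚ) * (φ F) ^ Q) := by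
    rw [isCoprime_mul_unit_left_left hu1, isCoprime_mul_unit_left_right hu2]
    exact hcop0.pow
  have hrad : (UniqueFactorizationMonoid.radical ((C ((c : ℚ) * s) * X ^ P : ℚ[X]) *
      (C (c : ℚ) * (φ F) ^ Q) * (-(φ B) ^ l))).natDegree ≤ 1 + F.natDegree + (φ B).natDegree := by
    obtain ⟨n, hn⟩ : ∃ n, n = P + Q + l := ⟨_, rfl⟩
    have h1 : (C ((c : ℚ) * s) * X ^ P : ℚ[X]) * (C (c : ℚ) * (φ F) ^ Q) * (-(φ B) ^ l) ∣
        (X * φ F * φ B) ^ n := by
      have h2 : (C ((c : ℚ) * s) * X ^ P : ℚ[X]) ∣ X ^ n :=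
        hu1.mul_left_dvd.mpr (pow_dvd_pow _ (by omega))
      have h3 : (C (c : ℚ) * (φ F) ^ Q : ℚ[X]) ∣ (φ F) ^ n :=
        hu2.mul_left_dvd.mpr (pow_dvd_pow _ (by omega))
      have h4 : (-(φ B) ^ l : ℚ[X]) ∣ (φ B) ^ n := neg_dvd.mpr (pow_dvd_pow _ (by omega))
      rw [mul_pow, mul_pow]
      exact mul_dvd_mul (mul_dvd_mul h2 h3) h4
    have hne : (X * φ F * φ B : ℚ[X]) ≠ 0 := mul_ne_zero (mul_ne_zero X_ne_zero hφF) hB
    have h2 := UniqueFactorizationMonoid.radical_dvd_radical h1 (pow_ne_zero n hne)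
    rw [UniqueFactorizationMonoid.radical_pow _ (by omega)] at h2
    have h3 := h2.trans UniqueFactorizationMonoid.radical_dvd_self
    have h4 := natDegree_le_of_dvd h3 hne
    rw [natDegree_mul (mul_ne_zero X_ne_zero hφF) hB, natDegree_mul X_ne_zero hφF, natDegree_X,
      hFdeg] at h4
    exact h4
  rcases Polynomial.abc ha hb hc' hcop hsum with ⟨h1, h2, h3⟩ | ⟨h1, -, -⟩
  · rw [natDegree_C_mul_X_pow _ _ (mul_ne_zero hcQ hsQ)] at h1
    rw [natDegree_C_mul hcQ, natDegree_pow, hFdeg] at h2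
    rw [natDegree_neg, natDegree_pow] at h3
    obtain ⟨β, hβ⟩ : ∃ β, β = (φ B).natDegree := ⟨_, rfl⟩
    obtain ⟨d, hd⟩ : ∃ d, d = F.natDegree := ⟨_, rfl⟩
    rw [← hβ] at h3 hrad
    rw [← hd] at h2 hrad hFd hcond
    have e1 : P ≤ d + β := by omega
    have e2 : Q * d ≤ d + β := by omega
    have e3 : l * β ≤ d + β := by omega
    obtain ⟨l', rfl⟩ : ∃ l', l = l' + 2 := ⟨l - 2, by omega⟩
    have e4 : (l' + 1) * β ≤ d := by nlinarith
    rcases Nat.lt_or_ge Q 2 with hQ2 | hQ2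
    · have hQ1 : Q = 1 := by omega
      rcases hcond with h5 | h5
      · omega
      · have h6 : l' + 2 - 1 = l' + 1 := by omega
        rw [h6] at h5
        nlinarith
    · obtain ⟨Q', rfl⟩ : ∃ Q', Q = Q' + 2 := ⟨Q - 2, by omega⟩
      have e5 : (Q' + 1) * d ≤ β := by nlinarith
      -- `(Q' + 1) (l' + 1) ≤ 1`
      have e6 : (l' + 1) * ((Q' + 1) * d) ≤ d := (Nat.mul_le_mul_left _ e5).trans e4
      have e7 : l' = 0 ∧ Q' = 0 := by
        constructor
        · by_contra h7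
          have h8 : 2 ≤ l' + 1 := by omega
          have h9 : 2 * (1 * d) ≤ (l' + 1) * ((Q' + 1) * d) := by gcongr; omega
          omega
        · by_contra h7
          have h8 : 2 ≤ Q' + 1 := by omega
          have h9 : 1 * (2 * d) ≤ (l' + 1) * ((Q' + 1) * d) := by gcongr; omega
          omega
      apply hlQ
      rw [e7.1, e7.2]
  · have h4 := congrArg (fun G : ℚ[X] => G.coeff (P - 1)) h1
    simp only [coeff_zero] at h4
    rw [coeff_derivative, coeff_C_mul, coeff_X_pow] at h4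
    have h5 : P - 1 + 1 = P := by omega
    rw [if_pos h5, mul_one, mul_eq_zero] at h4
    rcases h4 with h4 | h4
    · exact mul_ne_zero hcQ hsQ h4
    · have h6 : ((P - 1 : ℕ) : ℚ) + 1 ≠ 0 := by positivity
      exact h6 h4

end Pool.Agent.K9h9.PB
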