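import Mathlib
import Pool.Agent.K9h9.PB.Poly

/-!
# Small exponents: the expansion in base `m` is a polynomial identity
-/

set_option autoImplicit false

namespace Pool.Agent.K9h9.PB

open Finset Polynomial Pool.Agent.K9h9.CB

/-- the bound for the coefficients of the truncated series -/
def WB (P Q l W : ℕ) : ℕ := P * (P * (l ^ (2 * P) * 2 ^ Q * W ^ P))

theorem digits {m P Q l W : ℕ} {F : ℤ[X]} {b s : ℤ} (hl : l.Prime) (hlQ : ¬ l ∣ Q) (hlm : ¬ l ∣ m)
    (hP : 2 ≤ P) (hQ : 1 ≤ Q) (hs0 : s ≠ 0) (hsW : |s| ≤ (W : ℤ) ^ P) (hF0 : F.coeff 0 = 1)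
    (hFd : 1 ≤ F.natDegree)
    (hcond : 2 ≤ Q ∨ l * F.natDegree < (l - 1) * P) (hbm : (m : ℤ) ∣ b - 1)
    (hb : b ^ l = s * m ^ P + (F.eval (m : ℤ)) ^ Q) (hW1 : 1 ≤ W)
    (hW : ∀ N, ∑ i ∈ range N, |F.coeff i| ≤ W) (hbs : 2 * (l : ℤ) ^ (2 * P) * |b| < (m : ℤ) ^ P)
    (hbig : (WB P Q l W) ^ l + l ^ (2 * P * l) * (W ^ P + W ^ Q) < m) : False := by
  have hl2 := hl.two_le
  have hmZ0 : (0 : ℤ) < m := by
    have : 0 < m := by omega
    exact_mod_cast this
  obtain ⟨G, hG⟩ : ∃ G : ℤ[X], G = F - 1 := ⟨_, rfl⟩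
  have hGc : ∀ i, |G.coeff i| ≤ |F.coeff i| := by
    intro i
    rw [hG, coeff_sub, coeff_one]
    split_ifs with h
    · rw [h, hF0]
      simp
    · rw [sub_zero]
  have hGW : ∀ N, ∑ i ∈ range N, |G.coeff i| ≤ W := fun N =>
    (sum_le_sum (fun i _ => hGc i)).trans (hW N)
  have hWZ : (1 : ℤ) ≤ W := by exact_mod_cast hW1
  obtain ⟨c, hc⟩ : ∃ c : ℕ → ℤ, c = fun n => beta l Q n * (l : ℤ) ^ (2 * (P - n)) := ⟨_, rfl⟩
  have hcle : ∀ n < P, |c n| ≤ (l : ℤ) ^ (2 * P) * 2 ^ Q := by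
    intro n hn
    rw [hc]
    simp only
    rw [abs_mul]
    have h1 := abs_beta_le hl (g := (Q : ℤ)) (G := Q) (by positivity) (by
      have h2 : Q ≤ Q * l := Nat.le_mul_of_pos_right _ hl.pos
      exact_mod_cast h2) n
    have h2 : |(l : ℤ) ^ (2 * (P - n))| = (l : ℤ) ^ (2 * (P - n)) := abs_of_nonneg (by positivity)
    rw [h2]
    calc |beta l Q n| * (l : ℤ) ^ (2 * (P - n)) ≤ (l ^ (2 * n) * 2 ^ Q) * (l : ℤ) ^ (2 * (P - n)) := by
          gcongr
      _ = (l : ℤ) ^ (2 * P) * 2 ^ Q := by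
          rw [show 2 * P = 2 * n + 2 * (P - n) by omega, pow_add]
          ring
  obtain ⟨U, hU⟩ : ∃ U : ℤ[X], U = ∑ n ∈ range P, C (c n) * G ^ n := ⟨_, rfl⟩
  obtain ⟨V, hV⟩ : ∃ V : ℤ, V = P * ((l : ℤ) ^ (2 * P) * 2 ^ Q * W ^ P) := ⟨_, rfl⟩
  have hUc : ∀ i, |U.coeff i| ≤ V := by
    intro i
    rw [hU, finsetSum_coeff]
    refine (abs_sum_le_sum_abs _ _).trans ?_
    have h1 : ∀ n ∈ range P, |(C (c n) * G ^ n).coeff i| ≤ (l : ℤ) ^ (2 * P) * 2 ^ Q * W ^ P := by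
      intro n hn
      have hn' := mem_range.mp hn
      rw [coeff_C_mul, abs_mul]
      have h2 := hcle n hn'
      have h3 := coeff_pow_le hGW n i
      have h4 : (W : ℤ) ^ n ≤ W ^ P := pow_le_pow_right₀ hWZ hn'.le
      exact mul_le_mul h2 (h3.trans h4) (abs_nonneg _) (by positivity)
    refine (sum_le_sum h1).trans ?_
    rw [sum_const, card_range, nsmul_eq_mul, hV]
  have hV0 : 0 ≤ V := (abs_nonneg _).trans (hUc 0)
  obtain ⟨B, hB⟩ : ∃ B : ℤ[X], B = ∑ i ∈ range P, C (U.coeff i) * X ^ i := ⟨_, rfl⟩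
  have hBcoeff : ∀ i, B.coeff i = if i < P then U.coeff i else 0 := by
    intro i
    rw [hB, finsetSum_coeff]
    simp only [coeff_C_mul_X_pow]
    rw [Finset.sum_ite_eq]
    simp only [mem_range]
  have hWBZ : ((WB P Q l W : ℕ) : ℤ) = P * V := by
    rw [WB, hV]
    push_cast
    ring
  have hBW : ∀ N, ∑ i ∈ range N, |B.coeff i| ≤ ((WB P Q l W : ℕ) : ℤ) := by
    intro N
    have h1 : ∀ i, |B.coeff i| ≤ if i < P then V else 0 := by
      intro i
      rw [hBcoeff]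
      split_ifs
      · exact hUc i
      · simp
    refine (sum_le_sum (fun i _ => h1 i)).trans ?_
    rw [← sum_filter, sum_const, nsmul_eq_mul, hWBZ]
    apply mul_le_mul_of_nonneg_right _ hV0
    have h2 : (filter (fun i => i < P) (range N)) ⊆ range P := by
      intro i hi
      rw [mem_filter] at hi
      exact mem_range.mpr hi.2
    have h3 := card_le_card h2
    rw [card_range] at h3
    exact_mod_cast h3
  -- `X ^ P` divides `U - B`
  have hUB : (X : ℤ[X]) ^ P ∣ U - B := by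
    rw [X_pow_dvd_iff]
    intro i hi
    rw [coeff_sub, hBcoeff, if_pos hi, sub_self]
  have hUBm : (m : ℤ) ^ P ∣ U.eval (m : ℤ) - B.eval (m : ℤ) := by
    obtain ⟨S, hS⟩ := hUB
    have h1 := congrArg (eval (m : ℤ)) hS
    rw [eval_sub, eval_mul, eval_pow, eval_X] at h1
    exact ⟨_, h1⟩
  -- the value of `G`
  obtain ⟨A, hA⟩ : ∃ A : ℤ, A = F.divX.eval (m : ℤ) := ⟨_, rfl⟩
  have hFA : F.eval (m : ℤ) = 1 + A * m := by
    have h1 := congrArg (eval (m : ℤ)) (X_mul_divX_add F)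
    rw [hF0, eval_add, eval_mul, eval_X, eval_C, ← hA] at h1
    rw [← h1]
    ring
  have hGA : G.eval (m : ℤ) = A * m := by
    rw [hG, eval_sub, eval_one, hFA]
    ring
  have hmr : IsCoprime (m : ℤ) (l : ℤ) := by
    rw [Nat.isCoprime_iff_coprime, Nat.coprime_comm]
    exact (Nat.Prime.coprime_iff_not_dvd hl).mpr hlm
  have htaylor := taylor (Q := Q) (P := P) hl (by omega) hmr (A := A) hbm (by
    rw [hb, hFA, add_sub_cancel_right]
    exact Dvd.intro_left _ rfl)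
  have hUm : ∑ n ∈ range P, beta l Q n * (l : ℤ) ^ (2 * (P - n)) * (A * m) ^ n = U.eval (m : ℤ) := by
    rw [hU, eval_finsetSum]
    refine sum_congr rfl ?_
    intro n _
    rw [eval_mul, eval_C, eval_pow, hGA, hc]
  rw [hUm] at htaylor
  have hdvd : (m : ℤ) ^ P ∣ (l : ℤ) ^ (2 * P) * b - B.eval (m : ℤ) := by
    have h1 := dvd_add htaylor hUBm
    rwa [sub_add_sub_cancel] at h1
  -- sizes
  have hWB1 : 2 ≤ WB P Q l W := by
    rw [WB]
    have h1 : 1 ≤ l ^ (2 * P) * 2 ^ Q * W ^ P := Nat.one_le_iff_ne_zero.mpr (by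
      have : l ≠ 0 := hl.ne_zero
      positivity)
    calc 2 = 2 * (1 * 1) := by norm_num
      _ ≤ P * (P * (l ^ (2 * P) * 2 ^ Q * W ^ P)) := by gcongr; omega
  have hWBm : 2 * WB P Q l W < m := by
    have h1 : (WB P Q l W) ^ 2 ≤ (WB P Q l W) ^ l := Nat.pow_le_pow_right (by omega) hl2
    have h2 : 1 ≤ l ^ (2 * P * l) * (W ^ P + W ^ Q) := Nat.one_le_iff_ne_zero.mpr (by
      have : l ≠ 0 := hl.ne_zero
      positivity)
    nlinarith
  have hBle : 2 * |B.eval (m : ℤ)| < (m : ℤ) ^ P := by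
    have h1 : |B.eval (m : ℤ)| ≤ ∑ i ∈ range P, |B.coeff i| * (m : ℤ) ^ (P - 1) := by
      rw [hB, eval_finsetSum]
      refine (abs_sum_le_sum_abs _ _).trans (sum_le_sum ?_)
      intro i hi
      have hi' := mem_range.mp hi
      rw [eval_mul, eval_C, eval_pow, eval_X, abs_mul, ← hB, hBcoeff, if_pos hi',
        abs_of_nonneg (by positivity : (0 : ℤ) ≤ (m : ℤ) ^ i)]
      apply mul_le_mul_of_nonneg_left _ (abs_nonneg _)
      exact pow_le_pow_right₀ (by linarith) (by omega)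
    rw [← sum_mul] at h1
    have h2 : |B.eval (m : ℤ)| ≤ ((WB P Q l W : ℕ) : ℤ) * (m : ℤ) ^ (P - 1) :=
      h1.trans (mul_le_mul_of_nonneg_right (hBW P) (by positivity))
    have h3 : (m : ℤ) ^ P = m * (m : ℤ) ^ (P - 1) := by
      rw [← pow_succ']
      congr 1
      omega
    have h4 : (2 : ℤ) * ((WB P Q l W : ℕ) : ℤ) < m := by exact_mod_cast hWBm
    have h5 : (0 : ℤ) < (m : ℤ) ^ (P - 1) := by positivity
    rw [h3]
    nlinarith
  have hzero : (l : ℤ) ^ (2 * P) * b - B.eval (m : ℤ) = 0 := by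
    by_contra hne
    have h1 := Int.le_of_dvd (abs_pos.mpr hne) ((dvd_abs _ _).mpr hdvd)
    have h2 := abs_sub ((l : ℤ) ^ (2 * P) * b) (B.eval (m : ℤ))
    rw [abs_mul, abs_of_nonneg (by positivity : (0 : ℤ) ≤ (l : ℤ) ^ (2 * P))] at h2
    linarith
  have hBval : B.eval (m : ℤ) = (l : ℤ) ^ (2 * P) * b := by linarith
  -- the polynomial identity
  have hid : B ^ l = C ((l : ℤ) ^ (2 * P * l)) * (C s * X ^ P + F ^ Q) := by
    by_contra hne
    have hsub : B ^ l - C ((l : ℤ) ^ (2 * P * l)) * (C s * X ^ P + F ^ Q) ≠ 0 := sub_ne_zero.mpr hne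
    refine eval_ne_zero_of_coeff_lt (m := m) hsub ?_ ?_
    · intro i
      rw [coeff_sub]
      refine (abs_sub _ _).trans_lt ?_
      have h1 := coeff_pow_le hBW l i
      have h2 : |(C ((l : ℤ) ^ (2 * P * l)) * (C s * X ^ P + F ^ Q)).coeff i| ≤
          (l : ℤ) ^ (2 * P * l) * (W ^ P + W ^ Q) := by
        rw [coeff_C_mul, abs_mul, abs_of_nonneg (by positivity : (0 : ℤ) ≤ (l : ℤ) ^ (2 * P * l))]
        apply mul_le_mul_of_nonneg_left _ (by positivity)
        rw [coeff_add]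
        refine (abs_add_le _ _).trans (add_le_add ?_ (coeff_pow_le hW Q i))
        rw [coeff_C_mul_X_pow]
        split_ifs
        · exact hsW
        · simp only [abs_zero]
          positivity
      have h3 : ((WB P Q l W : ℕ) : ℤ) ^ l + (l : ℤ) ^ (2 * P * l) * (W ^ P + W ^ Q) < m := by
        exact_mod_cast hbig
      linarith
    · rw [eval_sub, eval_mul, eval_C, eval_add, eval_mul, eval_C, eval_pow, eval_pow, eval_pow, eval_X,
        hBval, ← hb, mul_pow, ← pow_mul, sub_self]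
  have hl0 : (l : ℤ) ^ (2 * P * l) ≠ 0 := pow_ne_zero _ (by exact_mod_cast hl.ne_zero)
  exact stothers hl2 hlQ (by omega) hQ hl0 hs0 hF0 hFd hcond hid

end Pool.Agent.K9h9.PB
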