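import Mathlib
import Pool.Agent.K9h9.PB.Digits
import Pool.Agent.K9h9.CB.Cons

/-!
# The case of an exponent divisible by the prime, and the reduction of the equation
-/

set_option autoImplicit false

namespace Pool.Agent.K9h9.PB

open Finset Polynomial Pool.Agent.K9h9.CB

lemma pow_lin (v x : ℤ) (i : ℕ) : x ^ 2 ∣ (v + x) ^ i - (v ^ i + i * v ^ (i - 1) * x) := by
  induction i with
  | zero => simp
  | succ i ih =>
    rcases Nat.eq_zero_or_pos i with h0 | h0
    · rw [h0]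
      simp
    · obtain ⟨k, rfl⟩ : ∃ k, i = k + 1 := ⟨i - 1, by omega⟩
      rw [Nat.add_sub_cancel] at ih ⊢
      have h : (v + x) ^ (k + 1 + 1) - (v ^ (k + 1 + 1) + ((k + 1 + 1 : ℕ) : ℤ) * v ^ (k + 1) * x) =
          (v + x) * ((v + x) ^ (k + 1) - (v ^ (k + 1) + ((k + 1 : ℕ) : ℤ) * v ^ k * x)) +
            x ^ 2 * (((k + 1 : ℕ) : ℤ) * v ^ k) := by
        push_cast
        ring
      rw [h]
      exact dvd_add (ih.mul_left _) (Dvd.intro _ rfl)

/-- `m ^ P` divides `l (b - v)` if it divides `b ^ l - v ^ l` and `m` divides `b - v`. -/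
lemma dvd_of_pow_sub_pow {m P l : ℕ} {b v : ℤ} (hl : l.Prime) (h : ¬ l ∣ m ∨ l ≠ 2)
    (hbv : (m : ℤ) ∣ b - v) (hcop : IsCoprime (m : ℤ) v) (hpow : (m : ℤ) ^ P ∣ b ^ l - v ^ l) :
    (m : ℤ) ^ P ∣ l * (b - v) := by
  obtain ⟨S, hS⟩ : ∃ S : ℤ, S = ∑ i ∈ range l, b ^ i * v ^ (l - 1 - i) := ⟨_, rfl⟩
  have hmul : (b - v) * S = b ^ l - v ^ l := by
    rw [hS]
    exact (Commute.all b v).mul_geom_sum₂ l
  rw [← hmul] at hpow
  have hsum : S - l * v ^ (l - 1) = ∑ i ∈ range l, (b ^ i - v ^ i) * v ^ (l - 1 - i) := by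
    have h1 : (l : ℤ) * v ^ (l - 1) = ∑ i ∈ range l, v ^ i * v ^ (l - 1 - i) := by
      rw [sum_congr rfl (g := fun _ => v ^ (l - 1)) (fun i hi => by
        have := mem_range.mp hi
        rw [← pow_add]
        congr 1
        omega), sum_const, card_range, nsmul_eq_mul]
    rw [h1, hS, ← sum_sub_distrib]
    refine sum_congr rfl ?_
    intro i _
    ring
  by_cases hlm : l ∣ m
  · -- `l` is odd
    have hl2 : l ≠ 2 := by
      rcases h with h | h
      · exact absurd hlm h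
      · exact h
    obtain ⟨k, hk⟩ := hl.odd_of_ne_two hl2
    have hlm' : (l : ℤ) * m ∣ (m : ℤ) ^ 2 := by
      rw [pow_two]
      exact mul_dvd_mul_right (by exact_mod_cast hlm) _
    obtain ⟨x, hx⟩ : ∃ x : ℤ, x = b - v := ⟨_, rfl⟩
    rw [← hx] at hbv
    have hbx : b = v + x := by rw [hx]; ring
    have hkey : (l : ℤ) * m ∣ S - l * v ^ (l - 1) := by
      have h1 : ∀ i ∈ range l, (l : ℤ) * m ∣ (b ^ i - v ^ i) * v ^ (l - 1 - i) -
          i * (v ^ (l - 2) * x) := by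
        intro i hi
        have hi' := mem_range.mp hi
        have h2 : (l : ℤ) * m ∣ (v + x) ^ i - (v ^ i + i * v ^ (i - 1) * x) :=
          (hlm'.trans (pow_dvd_pow_of_dvd hbv 2)).trans (pow_lin v x i)
        have h3 : (b ^ i - v ^ i) * v ^ (l - 1 - i) - i * (v ^ (l - 2) * x) =
            ((v + x) ^ i - (v ^ i + i * v ^ (i - 1) * x)) * v ^ (l - 1 - i) := by
          rcases Nat.eq_zero_or_pos i with h0 | h0
          · rw [h0]
            simp
          · have h4 : v ^ (l - 2) = v ^ (i - 1) * v ^ (l - 1 - i) := by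
              rw [← pow_add]
              congr 1
              omega
            rw [hbx, h4]
            ring
        rw [h3]
        exact h2.mul_right _
      have h2 := dvd_sum h1
      rw [sum_sub_distrib, ← hsum, ← sum_mul] at h2
      have h3 : ∑ i ∈ range l, (i : ℤ) = l * k := by
        have h4 := Finset.sum_range_id_mul_two l
        have h5 : (∑ i ∈ range l, i) * 2 = (l * k) * 2 := by
          rw [h4, hk]
          rw [Nat.add_sub_cancel]
          ring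
        have h6 : ∑ i ∈ range l, i = l * k := by omega
        have h7 : ((∑ i ∈ range l, i : ℕ) : ℤ) = ((l * k : ℕ) : ℤ) := by rw [h6]
        push_cast at h7
        exact h7
      rw [h3] at h2
      have h4 : (l : ℤ) * m ∣ l * k * (v ^ (l - 2) * x) := by
        have h5 : (l : ℤ) * k * (v ^ (l - 2) * x) = l * x * (k * v ^ (l - 2)) := by ring
        rw [h5]
        exact (mul_dvd_mul_left _ hbv).mul_right _
      have h5 := dvd_add h2 h4
      rwa [sub_add_cancel] at h5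
    obtain ⟨y, hy⟩ := hkey
    have hS2 : S = l * (v ^ (l - 1) + m * y) := by linear_combination hy
    rw [hS2] at hpow
    have hcop2 : IsCoprime ((m : ℤ) ^ P) (v ^ (l - 1) + m * y) :=
      (IsCoprime.add_mul_left_right hcop.pow_right y).pow_left
    apply hcop2.dvd_of_dvd_mul_right
    have h6 : (l : ℤ) * (b - v) * (v ^ (l - 1) + m * y) = (b - v) * (l * (v ^ (l - 1) + m * y)) := by ring
    rw [h6]
    exact hpow
  · have hkey : (m : ℤ) ∣ S - l * v ^ (l - 1) := by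
      rw [hsum]
      refine dvd_sum ?_
      intro i _
      exact (hbv.trans (sub_dvd_pow_sub_pow b v i)).mul_right _
    obtain ⟨y, hy⟩ := hkey
    have hS2 : S = l * v ^ (l - 1) + m * y := by linear_combination hy
    have hml : IsCoprime (m : ℤ) (l : ℤ) := by
      rw [Nat.isCoprime_iff_coprime, Nat.coprime_comm]
      exact (Nat.Prime.coprime_iff_not_dvd hl).mpr hlm
    have hcop2 : IsCoprime ((m : ℤ) ^ P) S := by
      rw [hS2]
      exact (IsCoprime.add_mul_left_right (hml.mul_right hcop.pow_right) y).pow_left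
    exact (hcop2.dvd_of_dvd_mul_right hpow).mul_left _

lemma no_small {m P l κ U : ℕ} (hκ : 1 ≤ κ) (hP : 1 ≤ P) (hlκ : κ + 1 ≤ l) (hlP : l ≤ κ * P)
    (hm : (64 * κ ^ 2) ^ (κ + 1) < m) (h1 : m ^ P ≤ 2 * l * U)
    (h2 : (U ^ l) ^ 2 ≤ 4 * m ^ ((2 * κ + 1) * P)) : False := by
  have hm0 : 0 < m := by omega
  have h3 : (m ^ P) ^ (2 * l) ≤ (16 * l ^ 2) ^ l * m ^ ((2 * κ + 1) * P) := by
    calc (m ^ P) ^ (2 * l) ≤ (2 * l * U) ^ (2 * l) := Nat.pow_le_pow_left h1 _
      _ = (4 * l ^ 2) ^ l * (U ^ l) ^ 2 := by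
          rw [mul_pow, ← pow_mul U, mul_comm l 2, pow_mul (2 * l)]
          congr 2
          ring
      _ ≤ (4 * l ^ 2) ^ l * (4 ^ l * m ^ ((2 * κ + 1) * P)) := by
          apply Nat.mul_le_mul_left
          refine h2.trans (Nat.mul_le_mul_right _ ?_)
          exact Nat.le_self_pow (by omega) _
      _ = _ := by
          rw [← mul_assoc, ← mul_pow]
          congr 2
          ring
  obtain ⟨j, rfl⟩ : ∃ j, l = κ + 1 + j := ⟨l - (κ + 1), by omega⟩
  have h4 : (m ^ P) ^ (2 * (κ + 1 + j)) = m ^ (P * (2 * j + 1)) * m ^ ((2 * κ + 1) * P) := by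
    rw [← pow_mul, ← pow_add]
    congr 1
    ring
  rw [h4] at h3
  have h5 := Nat.le_of_mul_le_mul_right h3 (by positivity)
  have h6 : (m ^ P) ^ (κ + 1 + j) ≤ ((16 * (κ + 1 + j) ^ 2) ^ (κ + 1)) ^ (κ + 1 + j) := by
    calc (m ^ P) ^ (κ + 1 + j) = m ^ (P * (κ + 1 + j)) := by rw [← pow_mul]
      _ ≤ m ^ (P * (2 * j + 1) * (κ + 1)) := by
          apply Nat.pow_le_pow_right hm0
          rw [mul_assoc]
          apply Nat.mul_le_mul_left
          nlinarith
      _ = (m ^ (P * (2 * j + 1))) ^ (κ + 1) := by rw [pow_mul]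
      _ ≤ ((16 * (κ + 1 + j) ^ 2) ^ (κ + 1 + j)) ^ (κ + 1) := Nat.pow_le_pow_left h5 _
      _ = _ := by rw [← pow_mul, ← pow_mul, mul_comm (κ + 1 + j)]
  have h7 := (Nat.pow_le_pow_iff_left (by omega)).mp h6
  have h8 : (16 * (κ + 1 + j) ^ 2) ≤ (64 * κ ^ 2) ^ P := by
    have h9 : P ^ 2 ≤ 4 ^ P := by
      calc P ^ 2 ≤ (2 ^ P) ^ 2 := Nat.pow_le_pow_left Nat.lt_two_pow_self.le 2
        _ = 4 ^ P := by
            rw [← pow_mul, mul_comm, pow_mul]
            norm_num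
    calc 16 * (κ + 1 + j) ^ 2 ≤ 16 * (κ * P) ^ 2 := by gcongr
      _ = (16 * κ ^ 2) * P ^ 2 := by ring
      _ ≤ (16 * κ ^ 2) ^ P * 4 ^ P := Nat.mul_le_mul (Nat.le_self_pow (by omega) _) h9
      _ = _ := by
          rw [← mul_pow]
          congr 1
          ring
  have h9 : m ^ P ≤ ((64 * κ ^ 2) ^ (κ + 1)) ^ P := by
    calc m ^ P ≤ (16 * (κ + 1 + j) ^ 2) ^ (κ + 1) := h7
      _ ≤ ((64 * κ ^ 2) ^ P) ^ (κ + 1) := Nat.pow_le_pow_left h8 _
      _ = _ := by rw [← pow_mul, ← pow_mul, mul_comm P]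
  have h10 := (Nat.pow_le_pow_iff_left (by omega)).mp h9
  omega

/-- The equation in terms of `F = f(0) f`. -/
lemma reduce {m x z P Q l n : ℕ} {F : ℤ[X]} (hl : l.Prime) (hm3 : 3 ≤ m) (hmx : m ∣ x) (hP : 1 ≤ P)
    (hF0 : F.coeff 0 = 1) (hn : n = (F.eval (m : ℤ)).natAbs) (heq : Eqn x n z P Q l)
    (hz : (l ≠ 2 ∧ ¬ l ∣ m.totient) ∨ ((m : ℤ) ∣ z - 1 ∨ (m : ℤ) ∣ z + 1)) :
    ∃ b s : ℤ, (s = 1 ∨ s = -1) ∧ |b| = z ∧ (m : ℤ) ∣ b - 1 ∧
      b ^ l = s * x ^ P + (F.eval (m : ℤ)) ^ Q := by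
  obtain ⟨s, t, hs, ht, hst⟩ := heq.signs
  obtain ⟨e, he, hne⟩ : ∃ e : ℤ, (e = 1 ∨ e = -1) ∧ (n : ℤ) = e * F.eval (m : ℤ) := by
    rcases Int.natAbs_eq (F.eval (m : ℤ)) with h | h
    · exact ⟨1, Or.inl rfl, by rw [hn, one_mul, ← h]⟩
    · refine ⟨-1, Or.inr rfl, ?_⟩
      rw [neg_one_mul, hn]
      linarith
  obtain ⟨v, hv⟩ : ∃ v : ℤ, v = F.eval (m : ℤ) := ⟨_, rfl⟩
  rw [← hv] at hne ⊢
  have hv1 : (m : ℤ) ∣ v - 1 := by
    have h1 := congrArg (eval (m : ℤ)) (X_mul_divX_add F)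
    rw [hF0, eval_add, eval_mul, eval_X, eval_C, ← hv] at h1
    rw [← h1, add_sub_cancel_right]
    exact Dvd.intro _ rfl
  have hvQ : (m : ℤ) ∣ v ^ Q - 1 := by
    have := hv1.trans (sub_dvd_pow_sub_pow v 1 Q)
    rwa [one_pow] at this
  have hmP : (m : ℤ) ∣ (x : ℤ) ^ P := (Int.natCast_dvd_natCast.mpr hmx).trans (dvd_pow_self _ (by omega))
  obtain ⟨E, hE⟩ : ∃ E : ℤ, E = t * e ^ Q := ⟨_, rfl⟩
  have hE1 : E = 1 ∨ E = -1 := by rw [hE]; exact pm_mul_pow ht he Q
  have hzE : (z : ℤ) ^ l = s * x ^ P + E * v ^ Q := by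
    rw [hst, hne, mul_pow, hE]
    ring
  have hEE : E * E = 1 := by rcases hE1 with h | h <;> rw [h] <;> norm_num
  have hEs : E * s = 1 ∨ E * s = -1 := by
    rcases hE1 with h | h <;> rcases hs with h' | h' <;> rw [h, h'] <;> norm_num
  have hEabs : |E| = 1 := by rcases hE1 with h | h <;> rw [h] <;> norm_num
  have hm3Z : (3 : ℤ) ≤ m := by exact_mod_cast hm3
  -- a number `±1` congruent to one is one
  have hone : ∀ γ : ℤ, (γ = 1 ∨ γ = -1) → (m : ℤ) ∣ γ - 1 → γ = 1 := by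
    rintro γ (h | h) h'
    · exact h
    · exfalso
      rw [h] at h'
      have h2 : (m : ℤ) ∣ 2 := by
        have := dvd_neg.mpr h'
        norm_num at this
        exact this
      have := Int.le_of_dvd (by norm_num) h2
      linarith
  rcases Nat.Prime.eq_two_or_odd' hl with h2 | hodd
  · -- `l = 2`
    have hz' : (m : ℤ) ∣ z - 1 ∨ (m : ℤ) ∣ z + 1 := by
      rcases hz with h | h
      · exact absurd h2 h.1
      · exact h
    obtain ⟨γ, hγ, hDγ⟩ : ∃ γ : ℤ, (γ = 1 ∨ γ = -1) ∧ (m : ℤ) ∣ z - γ := by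
      rcases hz' with h | h
      · exact ⟨1, Or.inl rfl, h⟩
      · exact ⟨-1, Or.inr rfl, by rw [sub_neg_eq_add]; exact h⟩
    have hγγ : γ * γ = 1 := by rcases hγ with h | h <;> rw [h] <;> norm_num
    have hγabs : |γ| = 1 := by rcases hγ with h | h <;> rw [h] <;> norm_num
    have hE : E = 1 := by
      apply hone E hE1
      have h3 : (m : ℤ) ∣ (z : ℤ) ^ l - γ ^ l := hDγ.trans (sub_dvd_pow_sub_pow _ _ l)
      have h4 : E - 1 = (z ^ l - γ ^ l) - s * x ^ P - E * (v ^ Q - 1) := by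
        rw [hzE, h2]
        linear_combination hγγ
      rw [h4]
      exact dvd_sub (dvd_sub h3 (hmP.mul_left _)) (hvQ.mul_left _)
    refine ⟨γ * z, s, hs, ?_, ?_, ?_⟩
    · rw [abs_mul, hγabs, one_mul, Nat.abs_cast]
    · have h3 : γ * (z : ℤ) - 1 = γ * (z - γ) := by linear_combination hγγ
      rw [h3]
      exact hDγ.mul_left _
    · rw [mul_pow, hzE, h2, hE]
      linear_combination (s * (x : ℤ) ^ P + v ^ Q) * hγγ
  · have hEl := pm_pow hodd hE1
    have hbl : (E * (z : ℤ)) ^ l = E * s * x ^ P + v ^ Q := by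
      rw [mul_pow, hEl, hzE]
      linear_combination (v ^ Q) * hEE
    refine ⟨E * z, E * s, hEs, ?_, ?_, hbl⟩
    · rw [abs_mul, hEabs, one_mul, Nat.abs_cast]
    · have hb1 : (m : ℤ) ∣ (E * z) ^ l - 1 := by
        rw [hbl]
        have h3 : E * s * (x : ℤ) ^ P + v ^ Q - 1 = E * s * x ^ P + (v ^ Q - 1) := by ring
        rw [h3]
        exact dvd_add (hmP.mul_left _) hvQ
      rcases hz with ⟨-, hφ⟩ | hz'
      · refine dvd_sub_of_pow hl (by omega) hφ isCoprime_one_right ?_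
        rw [one_pow]
        exact hb1
      · obtain ⟨γ, hγ, hDγ⟩ : ∃ γ : ℤ, (γ = 1 ∨ γ = -1) ∧ (m : ℤ) ∣ E * z - γ := by
          rcases hz' with h | h
          · refine ⟨E, hE1, ?_⟩
            have h3 : E * (z : ℤ) - E = E * (z - 1) := by ring
            rw [h3]
            exact h.mul_left _
          · refine ⟨-E, by rcases hE1 with h' | h' <;> rw [h'] <;> norm_num, ?_⟩
            have h3 : E * (z : ℤ) - -E = E * (z + 1) := by ring
            rw [h3]
            exact h.mul_left _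
        have hγ1 : γ = 1 := by
          apply hone γ hγ
          have h3 : (m : ℤ) ∣ (E * (z : ℤ)) ^ l - γ ^ l := hDγ.trans (sub_dvd_pow_sub_pow _ _ l)
          rw [pm_pow hodd hγ] at h3
          have h4 := dvd_sub hb1 h3
          rwa [sub_sub_sub_cancel_left] at h4
        rwa [hγ1] at hDγ

end Pool.Agent.K9h9.PB
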