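import Mathlib
import Pool.Agent.K9h9.PB.Dvd
import Pool.Agent.K9h9.SR.Small

/-!
# The bases `m` and `|f(m)|`
-/

set_option autoImplicit false

namespace Pool.Agent.K9h9.PB

open Finset Polynomial Pool.Agent.K9h9.CB

lemma gap_real {L l d R θ κ ε δ : ℝ} (hR : 1 ≤ R) (hL2 : 2 ≤ L) (hLl : L ≤ l) (hlR : l ≤ R)
    (hdL : 2 * d ≤ L) (hθ : θ = κ * (1 + 1 / (8 * R ^ 2))) (hκL : κ * (L - 1) ≤ l - 1)
    (hε : ε = 1 / (8 * R)) (hδ : 16 * R * δ ≤ 1) (hκ : 0 ≤ κ)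
    (h : L * (1 - θ * (L - 1) / (2 * l)) - ε ≤ d + 2 * δ) : False := by
  have hl0 : 0 < l := by linarith
  have hR0 : 0 < R := by linarith
  obtain ⟨τ, hτ⟩ : ∃ τ, τ = 1 / (8 * R ^ 2) := ⟨_, rfl⟩
  have hτ0 : 0 < τ := by rw [hτ]; positivity
  have hτR : 8 * (R * R) * τ = 1 := by
    rw [hτ]
    field_simp
  rw [← hτ] at hθ
  have h1 : θ * (L - 1) ≤ (1 + τ) * (l - 1) := by
    rw [hθ]
    calc κ * (1 + τ) * (L - 1) = (1 + τ) * (κ * (L - 1)) := by ring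
      _ ≤ _ := mul_le_mul_of_nonneg_left hκL (by linarith)
  have h2 : θ * (L - 1) / (2 * l) ≤ (1 + τ) / 2 - 1 / (2 * l) := by
    rw [div_le_iff₀ (by linarith)]
    have h3 : ((1 + τ) / 2 - 1 / (2 * l)) * (2 * l) = (1 + τ) * l - 1 := by
      field_simp
    rw [h3]
    nlinarith
  have h3 : L * (1 - ((1 + τ) / 2 - 1 / (2 * l))) ≤ L * (1 - θ * (L - 1) / (2 * l)) :=
    mul_le_mul_of_nonneg_left (by linarith) (by linarith)
  have h4 : L * (1 - ((1 + τ) / 2 - 1 / (2 * l))) = L / 2 - L * τ / 2 + L / (2 * l) := by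
    field_simp
    ring
  have h5 : 1 / R ≤ L / (2 * l) := by
    rw [div_le_div_iff₀ hR0 (by linarith)]
    nlinarith
  have h6 : L * τ / 2 ≤ 1 / (16 * R) := by
    rw [le_div_iff₀ (by linarith)]
    have : L * τ * R ≤ R * τ * R := by
      apply mul_le_mul_of_nonneg_right _ hR0.le
      exact mul_le_mul_of_nonneg_right (hLl.trans hlR) hτ0.le
    nlinarith
  have h7 : 2 * δ ≤ 1 / (8 * R) := by
    rw [le_div_iff₀ (by linarith)]
    linarith
  have h8 : 1 / R = 16 * (1 / (16 * R)) := by field_simp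
  have h9 : 1 / (8 * R) = 2 * (1 / (16 * R)) := by
    field_simp
    norm_num
  have h10 : 0 < 1 / (16 * R) := by positivity
  rw [hε] at h
  linarith

/-- if `l` divides `m`, then `l` divides the linear coefficient -/
lemma dvd_coeff_one {m x P Q l : ℕ} {F : ℤ[X]} {b s : ℤ} (hl : l.Prime) (hlm : l ∣ m) (hmx : m ∣ x)
    (hφ : ¬ l ∣ m.totient) (hlQ : ¬ l ∣ Q) (hP : 2 ≤ P) (hF0 : F.coeff 0 = 1)
    (hbm : (m : ℤ) ∣ b - 1) (hb : b ^ l = s * x ^ P + (F.eval (m : ℤ)) ^ Q) :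
    (l : ℤ) ∣ F.coeff 1 := by
  have hlp : Prime (l : ℤ) := Nat.prime_iff_prime_int.mp hl
  have hlm' : (l : ℤ) ∣ m := by exact_mod_cast hlm
  obtain ⟨A, hA⟩ : ∃ A : ℤ, A = F.divX.eval (m : ℤ) := ⟨_, rfl⟩
  have hFA : F.eval (m : ℤ) = 1 + A * m := by
    have h1 := congrArg (eval (m : ℤ)) (X_mul_divX_add F)
    rw [hF0, eval_add, eval_mul, eval_X, eval_C, ← hA] at h1
    rw [← h1]
    ring
  have hA1 : (m : ℤ) ∣ A - F.coeff 1 := by
    have h1 := congrArg (eval (m : ℤ)) (X_mul_divX_add F.divX)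
    rw [eval_add, eval_mul, eval_X, eval_C, ← hA, coeff_divX] at h1
    refine ⟨F.divX.divX.eval (m : ℤ), ?_⟩
    rw [← h1]
    ring
  have h1 : (l : ℤ) ^ 2 ∣ (1 + A * (m : ℤ)) ^ Q - (1 + Q * (A * m)) := by
    refine Dvd.dvd.trans ?_ (add_pow_two_dvd (A * (m : ℤ)) Q)
    have h4 : (A * (m : ℤ)) ^ 2 = A ^ 2 * m ^ 2 := by ring
    rw [h4]
    exact (pow_dvd_pow_of_dvd hlm' 2).mul_left _
  have h2 : (l : ℤ) ^ 2 ∣ b ^ l - 1 := by
    have h3 := dvd_sub_pow_of_dvd_sub (hlm'.trans hbm) 1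
    rw [pow_one, one_pow] at h3
    exact h3
  have hlx' : (l : ℤ) ∣ x := hlm'.trans (Int.natCast_dvd_natCast.mpr hmx)
  have h3 : (l : ℤ) ^ 2 ∣ s * (x : ℤ) ^ P :=
    ((pow_dvd_pow_of_dvd hlx' 2).trans (pow_dvd_pow _ hP)).mul_left _
  have h4 : (l : ℤ) ^ 2 ∣ (Q : ℤ) * (A * m) := by
    have h5 := dvd_sub (dvd_sub h2 h3) h1
    have h6 : b ^ l - 1 - s * (x : ℤ) ^ P - ((1 + A * (m : ℤ)) ^ Q - (1 + Q * (A * m))) =
        Q * (A * m) := by
      rw [hb, hFA]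
      ring
    rwa [h6] at h5
  obtain ⟨m', hm'⟩ := hlm
  have hlm2 : ¬ l ∣ m' := by
    rintro ⟨k, hk⟩
    apply not_sq_dvd hl hφ
    exact ⟨k, by rw [hm', hk]; ring⟩
  have hlm2' : ¬ (l : ℤ) ∣ m' := by
    intro h
    exact hlm2 (by exact_mod_cast h)
  have hlQ' : ¬ (l : ℤ) ∣ Q := by
    intro h
    exact hlQ (by exact_mod_cast h)
  have h5 : (l : ℤ) ∣ (Q : ℤ) * (A * m') := by
    have h6 : (Q : ℤ) * (A * m) = l * (Q * (A * m')) := by
      rw [hm']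
      push_cast
      ring
    rw [h6, pow_two] at h4
    have hl0 : (l : ℤ) ≠ 0 := by exact_mod_cast hl.ne_zero
    exact (mul_dvd_mul_iff_left hl0).mp h4
  have h6 : (l : ℤ) ∣ A := by
    rcases hlp.dvd_or_dvd h5 with h | h
    · exact absurd h hlQ'
    · rcases hlp.dvd_or_dvd h with h | h
      · exact h
      · exact absurd h hlm2'
  have h7 := dvd_sub h6 (hlm'.trans hA1)
  rwa [sub_sub_cancel] at h7

theorem poly_main (d κ : ℕ) (hκ : 1 ≤ κ) : ∃ δ : ℝ, 0 < δ ∧ ∃ N : ℕ,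
    ∀ (m x z P Q l : ℕ) (f : ℤ[X]), N ≤ m → m ∣ x → 0 < x → (x : ℝ) ≤ (m : ℝ) ^ (1 + δ) → 1 ≤ f.natDegree → f.natDegree ≤ d → |f.coeff 0| = 1 →
      (∀ i, |(f.coeff i : ℝ)| ≤ (m : ℝ) ^ δ) → ¬ (l ∣ m ∧ (l : ℤ) ∣ f.coeff 1) → 2 ≤ P → 1 ≤ Q →
      f.natDegree * Q ≤ κ * P → (2 ≤ Q ∨ l * f.natDegree < (l - 1) * P) → l.Prime →
      κ * (2 * f.natDegree - 1) < l → 2 ≤ z →
      ((l ≠ 2 ∧ ¬ l ∣ m.totient) ∨ (¬ l ∣ m ∧ ((m : ℤ) ∣ z - 1 ∨ (m : ℤ) ∣ z + 1))) →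
      ¬ Eqn x (f.eval (m : ℤ)).natAbs z P Q l := by
  obtain ⟨C₀, hC₀⟩ := Pool.Agent.K9h9.SR.fracA (2 * κ + 1)
  obtain ⟨R₀, hR₀⟩ : ∃ R₀, R₀ = C₀ * (d + 1) + 2 := ⟨_, rfl⟩
  have hR₀1 : 1 ≤ R₀ := by omega
  have hR₀R : (1 : ℝ) ≤ R₀ := by exact_mod_cast hR₀1
  have hκR : (1 : ℝ) ≤ κ := by exact_mod_cast hκ
  obtain ⟨θ, hθ⟩ : ∃ θ : ℝ, θ = κ * (1 + 1 / (8 * (R₀ : ℝ) ^ 2)) := ⟨_, rfl⟩
  obtain ⟨ε, hε⟩ : ∃ ε : ℝ, ε = 1 / (8 * (R₀ : ℝ)) := ⟨_, rfl⟩
  have hε0 : 0 < ε := by rw [hε]; positivity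
  have hτ0 : (0 : ℝ) < 1 / (8 * (R₀ : ℝ) ^ 2) := by positivity
  have hθ1 : 1 ≤ θ := by
    rw [hθ]
    nlinarith
  choose D₁ P₁ hsr using fun L : ℕ => Pool.Agent.K9h9.SR.small_roots θ ε hθ1 hε0 (L + 2) (by omega)
  obtain ⟨D₂, hD₂⟩ : ∃ D₂, D₂ = ∑ i ∈ range R₀, D₁ i := ⟨_, rfl⟩
  obtain ⟨P₂, hP₂⟩ : ∃ P₂, P₂ = ∑ i ∈ range R₀, P₁ i + 2 := ⟨_, rfl⟩
  have hD₁ : ∀ i < R₀, D₁ i ≤ D₂ := by
    intro i hi
    rw [hD₂]
    exact single_le_sum (f := D₁) (fun _ _ => Nat.zero_le _) (mem_range.mpr hi)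
  have hP₁ : ∀ i < R₀, P₁ i ≤ P₂ := by
    intro i hi
    rw [hP₂]
    have := single_le_sum (f := P₁) (fun _ _ => Nat.zero_le _) (mem_range.mpr hi)
    omega
  obtain ⟨Q₂, hQ₂⟩ : ∃ Q₂, Q₂ = κ * P₂ := ⟨_, rfl⟩
  obtain ⟨E₁, hE₁⟩ : ∃ E₁, E₁ = P₂ * R₀ + Q₂ := ⟨_, rfl⟩
  have hP₂2 : 2 ≤ P₂ := by omega
  have hE₁1 : 1 ≤ E₁ := by
    rw [hE₁]
    have : 0 < P₂ * R₀ := by positivity
    omega
  obtain ⟨K₁, hK₁⟩ : ∃ K₁, K₁ = (P₂ * (P₂ * (R₀ ^ (2 * P₂) * 2 ^ Q₂))) ^ R₀ +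
    2 * R₀ ^ (2 * P₂ * R₀) := ⟨_, rfl⟩
  have hK₁2 : 2 ≤ K₁ := by
    rw [hK₁]
    have : 0 < R₀ ^ (2 * P₂ * R₀) := by positivity
    omega
  obtain ⟨K₂, hK₂⟩ : ∃ K₂, K₂ = 4 * (2 * R₀ ^ (2 * P₂)) ^ (2 * R₀) := ⟨_, rfl⟩
  obtain ⟨Z, hZ⟩ : ∃ Z, Z = 16 * R₀ ^ 2 * κ * E₁ := ⟨_, rfl⟩
  have hZ1 : 1 ≤ Z := by
    rw [hZ]
    have : 0 < 16 * R₀ ^ 2 * κ * E₁ := by positivity
    omega
  have hZR : (1 : ℝ) ≤ Z := by exact_mod_cast hZ1
  have hE₁R : (1 : ℝ) ≤ E₁ := by exact_mod_cast hE₁1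
  obtain ⟨δ, hδ⟩ : ∃ δ : ℝ, δ = 1 / Z := ⟨_, rfl⟩
  have hδ0 : 0 < δ := by rw [hδ]; positivity
  have hδZ : δ * (16 * (R₀ : ℝ) ^ 2 * κ * E₁) = 1 := by
    rw [hδ, hZ]
    push_cast
    field_simp
  have hδ1 : 16 * (R₀ : ℝ) * δ ≤ 1 := by
    rw [← hδZ]
    have h1 : (R₀ : ℝ) ≤ (R₀ : ℝ) ^ 2 * κ * E₁ := by
      calc (R₀ : ℝ) = R₀ * 1 * 1 * 1 := by ring
        _ ≤ R₀ * R₀ * κ * E₁ := by gcongr
        _ = _ := by ring
    nlinarith
  have hδ2 : 16 * (E₁ : ℝ) * δ ≤ 1 := by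
    rw [← hδZ]
    have h1 : (E₁ : ℝ) ≤ (R₀ : ℝ) ^ 2 * κ * E₁ := by
      calc (E₁ : ℝ) = 1 * 1 * 1 * E₁ := by ring
        _ ≤ R₀ * R₀ * κ * E₁ := by gcongr
        _ = _ := by ring
    nlinarith
  have hδ3 : 16 * (κ : ℝ) * δ ≤ 1 := by
    rw [← hδZ]
    have h1 : (κ : ℝ) ≤ (R₀ : ℝ) ^ 2 * κ * E₁ := by
      calc (κ : ℝ) = 1 * 1 * κ * 1 := by ring
        _ ≤ R₀ * R₀ * κ * E₁ := by gcongr
        _ = _ := by ring
    nlinarith
  have hδ4 : 2 * δ ≤ 1 / (8 * (R₀ : ℝ) ^ 2) := by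
    rw [le_div_iff₀ (by positivity)]
    rw [← hδZ]
    have h1 : (R₀ : ℝ) ^ 2 ≤ (R₀ : ℝ) ^ 2 * κ * E₁ := by
      calc (R₀ : ℝ) ^ 2 = (R₀ : ℝ) ^ 2 * 1 * 1 := by ring
        _ ≤ (R₀ : ℝ) ^ 2 * κ * E₁ := by gcongr
    nlinarith
  refine ⟨δ, hδ0, D₂ + (d + 1) ^ Z + (64 * κ ^ 2) ^ (κ + 1) + (K₁ * (d + 1) ^ E₁) ^ 2 + K₂ + 16, ?_⟩
  intro m x z P Q l f hm hmx hx0 hxm hfd1 hfd hf0 hfc hlf hP hQ hdQ hcond hl hlκ hz hzm heq
  have hmD : D₂ ≤ m := by omega
  have hmd : (d + 1) ^ Z ≤ m := by omega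
  have hmκ : (64 * κ ^ 2) ^ (κ + 1) < m := by omega
  have hmK : (K₁ * (d + 1) ^ E₁) ^ 2 < m := by omega
  have hmK2 : K₂ < m := by omega
  have hm16 : 16 ≤ m := by omega
  have hm0 : 0 < m := by omega
  have hm3 : 3 ≤ m := by omega
  have hmR : (16 : ℝ) ≤ m := by exact_mod_cast hm16
  have hm0R : (0 : ℝ) < m := by linarith
  have hm1R : (1 : ℝ) < m := by linarith
  have hl2 := hl.two_le
  have hmpow : ∀ u v : ℝ, u ≤ v → (m : ℝ) ^ u ≤ (m : ℝ) ^ v := fun u v h =>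
    Real.rpow_le_rpow_of_exponent_le hm1R.le h
  have hκl : κ + 1 ≤ l := by
    have h1 : κ * 1 ≤ κ * (2 * f.natDegree - 1) := Nat.mul_le_mul_left _ (by omega)
    omega
  -- the polynomial `F`
  obtain ⟨u, hu⟩ : ∃ u, u = f.coeff 0 := ⟨_, rfl⟩
  rw [← hu] at hf0
  have hu1 : u = 1 ∨ u = -1 := by
    rcases abs_eq (zero_le_one' ℤ) |>.mp hf0 with h | h
    · exact Or.inl h
    · exact Or.inr h
  have huu : u * u = 1 := by rcases hu1 with h | h <;> rw [h] <;> norm_num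
  obtain ⟨F, hF⟩ : ∃ F : ℤ[X], F = C u * f := ⟨_, rfl⟩
  have hFc : ∀ i, F.coeff i = u * f.coeff i := by
    intro i
    rw [hF, coeff_C_mul]
  have hFabs : ∀ i, |F.coeff i| = |f.coeff i| := by
    intro i
    rw [hFc, abs_mul, hf0, one_mul]
  have hF0 : F.coeff 0 = 1 := by rw [hFc, ← hu, huu]
  have hu0 : u ≠ 0 := by rcases hu1 with h | h <;> rw [h] <;> norm_num
  have hFdeg : F.natDegree = f.natDegree := by rw [hF, natDegree_C_mul hu0]
  have hFd1 : 1 ≤ F.natDegree := by rw [hFdeg]; exact hfd1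
  obtain ⟨n, hn⟩ : ∃ n, n = (f.eval (m : ℤ)).natAbs := ⟨_, rfl⟩
  rw [← hn] at heq
  have hnF : n = (F.eval (m : ℤ)).natAbs := by
    rw [hn, hF, eval_mul, eval_C, Int.natAbs_mul]
    rcases hu1 with h | h <;> rw [h] <;> simp
  obtain ⟨D, hD⟩ : ∃ D, D = f.natDegree := ⟨_, rfl⟩
  rw [← hD] at hfd1 hfd hdQ hcond hlκ hFdeg
  -- the coefficients
  obtain ⟨S, hS⟩ : ∃ S : ℝ, S = (d + 1) * (m : ℝ) ^ δ := ⟨_, rfl⟩
  have hmδ1 : 1 ≤ (m : ℝ) ^ δ := Real.one_le_rpow hm1R.le hδ0.le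
  have hS1 : 1 ≤ S := by
    rw [hS]
    have : (0 : ℝ) ≤ d := Nat.cast_nonneg _
    nlinarith
  have hsumS : ∀ N, ∑ i ∈ range N, |((F.coeff i : ℤ) : ℝ)| ≤ S := by
    intro N
    have h1 : ∀ i, |((F.coeff i : ℤ) : ℝ)| ≤ if i < d + 1 then (m : ℝ) ^ δ else 0 := by
      intro i
      split_ifs with h
      · have h2 : |((F.coeff i : ℤ) : ℝ)| = |((f.coeff i : ℤ) : ℝ)| := by
          have := hFabs i
          rw [← Int.cast_abs, ← Int.cast_abs, this]
        rw [h2]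
        exact hfc i
      · rw [coeff_eq_zero_of_natDegree_lt (by omega)]
        simp
    refine (sum_le_sum (fun i _ => h1 i)).trans ?_
    rw [← sum_filter, sum_const, nsmul_eq_mul, hS]
    apply mul_le_mul_of_nonneg_right _ (by positivity)
    have h2 : (filter (fun i => i < d + 1) (range N)) ⊆ range (d + 1) := by
      intro i hi
      rw [mem_filter] at hi
      exact mem_range.mpr hi.2
    have h3 := card_le_card h2
    rw [card_range] at h3
    exact_mod_cast h3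
  obtain ⟨W, hW⟩ : ∃ W, W = ⌊S⌋₊ := ⟨_, rfl⟩
  have hWS : (W : ℝ) ≤ S := by rw [hW]; exact Nat.floor_le (by linarith)
  have hW1 : 1 ≤ W := by rw [hW]; exact Nat.le_floor (by simpa using hS1)
  have hWsum : ∀ N, ∑ i ∈ range N, |F.coeff i| ≤ (W : ℤ) := by
    intro N
    have h1 : ∑ i ∈ range N, (F.coeff i).natAbs ≤ W := by
      rw [hW]
      apply Nat.le_floor
      have h2 : ((∑ i ∈ range N, (F.coeff i).natAbs : ℕ) : ℝ) = ∑ i ∈ range N, |((F.coeff i : ℤ) : ℝ)| := by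
        push_cast
        refine sum_congr rfl ?_
        intro i _
        exact Nat.cast_natAbs _ |>.trans (Int.cast_abs)
      rw [h2]
      exact hsumS N
    have h2 : ∑ i ∈ range N, |F.coeff i| = ((∑ i ∈ range N, (F.coeff i).natAbs : ℕ) : ℤ) := by
      push_cast
      rfl
    rw [h2]
    exact_mod_cast h1
  have hd1R : (1 : ℝ) ≤ (d : ℝ) + 1 := by
    have : (0 : ℝ) ≤ d := Nat.cast_nonneg _
    linarith
  -- the power of `W`
  have hWE : (K₁ : ℝ) * (W : ℝ) ^ E₁ < m := by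
    have h1 : (W : ℝ) ^ E₁ ≤ ((d : ℝ) + 1) ^ E₁ * (m : ℝ) ^ (1 / 2 : ℝ) := by
      calc (W : ℝ) ^ E₁ ≤ S ^ E₁ := pow_le_pow_left₀ (by positivity) hWS _
        _ = ((d : ℝ) + 1) ^ E₁ * (m : ℝ) ^ (δ * E₁) := by
            rw [hS, mul_pow, ← Real.rpow_natCast ((m : ℝ) ^ δ), ← Real.rpow_mul hm0R.le]
        _ ≤ _ := by
            apply mul_le_mul_of_nonneg_left _ (by positivity)
            apply hmpow
            nlinarith
    have h2 : (K₁ : ℝ) * ((d : ℝ) + 1) ^ E₁ < (m : ℝ) ^ (1 / 2 : ℝ) := by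
      rw [← Real.sqrt_eq_rpow]
      apply Real.lt_sqrt_of_sq_lt
      exact_mod_cast hmK
    have h3 : (m : ℝ) ^ (1 / 2 : ℝ) * (m : ℝ) ^ (1 / 2 : ℝ) = m := by
      rw [← Real.rpow_add hm0R]
      norm_num
    have h4 : 0 < (m : ℝ) ^ (1 / 2 : ℝ) := by positivity
    calc (K₁ : ℝ) * (W : ℝ) ^ E₁ ≤ K₁ * (((d : ℝ) + 1) ^ E₁ * (m : ℝ) ^ (1 / 2 : ℝ)) :=
          mul_le_mul_of_nonneg_left h1 (by positivity)
      _ = (K₁ * ((d : ℝ) + 1) ^ E₁) * (m : ℝ) ^ (1 / 2 : ℝ) := by ring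
      _ < (m : ℝ) ^ (1 / 2 : ℝ) * (m : ℝ) ^ (1 / 2 : ℝ) := mul_lt_mul_of_pos_right h2 h4
      _ = m := h3
  have hWEN : K₁ * W ^ E₁ < m := by exact_mod_cast hWE
  have hWm : W + 1 < m := by
    have h1 : W ^ 1 ≤ W ^ E₁ := Nat.pow_le_pow_right hW1 hE₁1
    rw [pow_one] at h1
    have h2 : 2 * W ≤ K₁ * W ^ E₁ := Nat.mul_le_mul hK₁2 h1
    omega
  -- `n` is at least two
  have hcW : ∀ i, |F.coeff i| ≤ (W : ℤ) := by
    intro i
    have h1 := single_le_sum (s := range (i + 1)) (f := fun j => |F.coeff j|)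
      (fun _ _ => abs_nonneg _) (mem_range.mpr (Nat.lt_succ_self i))
    exact h1.trans (hWsum (i + 1))
  have hWmZ : (W : ℤ) + 1 < m := by exact_mod_cast hWm
  have hFne : ∀ c : ℤ, |c| ≤ 1 → F.eval (m : ℤ) ≠ c := by
    intro c hc h
    have h1 : F - C c ≠ 0 := by
      intro h2
      have h3 : F = C c := sub_eq_zero.mp h2
      rw [h3, natDegree_C] at hFd1
      omega
    refine eval_ne_zero_of_coeff_lt (m := m) h1 ?_ ?_
    · intro i
      rw [coeff_sub, coeff_C]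
      refine (abs_sub _ _).trans_lt ?_
      have h2 := hcW i
      have h3 : |if i = 0 then c else 0| ≤ 1 := by
        split_ifs
        · exact hc
        · simp
      linarith
    · rw [eval_sub, eval_C, h, sub_self]
  have hn2 : 2 ≤ n := by
    by_contra hcon
    have h1 : n = 0 ∨ n = 1 := by omega
    rcases h1 with h1 | h1
    · rw [hnF, Int.natAbs_eq_zero] at h1
      exact hFne 0 (by simp) h1
    · rw [hnF, Int.natAbs_eq_iff] at h1
      rcases h1 with h1 | h1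
      · exact hFne 1 (by simp) (by exact_mod_cast h1)
      · exact hFne (-1) (by simp) (by push_cast at h1; exact h1)
  -- the size of `n`
  have hnR : (n : ℝ) ≤ (m : ℝ) ^ ((D : ℝ) + 2 * δ) := by
    have h1 : (n : ℝ) = |((F.eval (m : ℤ) : ℤ) : ℝ)| := by
      rw [hnF]
      exact Nat.cast_natAbs _ |>.trans (Int.cast_abs)
    rw [h1, eval_eq_sum_range]
    push_cast
    refine (abs_sum_le_sum_abs _ _).trans ?_
    have h2 : ∀ i ∈ range (F.natDegree + 1), |((F.coeff i : ℤ) : ℝ) * (m : ℝ) ^ i| ≤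
        |((F.coeff i : ℤ) : ℝ)| * (m : ℝ) ^ D := by
      intro i hi
      have hi' := mem_range.mp hi
      rw [abs_mul, abs_of_nonneg (by positivity : (0 : ℝ) ≤ (m : ℝ) ^ i)]
      apply mul_le_mul_of_nonneg_left _ (abs_nonneg _)
      exact pow_le_pow_right₀ hm1R.le (by omega)
    refine (sum_le_sum h2).trans ?_
    rw [← sum_mul]
    have h3 : (d : ℝ) + 1 ≤ (m : ℝ) ^ δ := by
      have h4 : (((d : ℝ) + 1) ^ Z) ^ δ ≤ (m : ℝ) ^ δ := by
        apply Real.rpow_le_rpow (by positivity) _ hδ0.le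
        exact_mod_cast hmd
      have h5 : (((d : ℝ) + 1) ^ Z) ^ δ = (d : ℝ) + 1 := by
        rw [← Real.rpow_natCast, ← Real.rpow_mul (by positivity), hδ, mul_one_div_cancel (by positivity),
          Real.rpow_one]
      rwa [h5] at h4
    calc (∑ i ∈ range (F.natDegree + 1), |((F.coeff i : ℤ) : ℝ)|) * (m : ℝ) ^ D ≤ S * (m : ℝ) ^ D :=
          mul_le_mul_of_nonneg_right (hsumS _) (by positivity)
      _ ≤ ((m : ℝ) ^ δ * (m : ℝ) ^ δ) * (m : ℝ) ^ D := by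
          rw [hS]
          gcongr
      _ = _ := by
          rw [← Real.rpow_natCast, ← Real.rpow_add hm0R, ← Real.rpow_add hm0R]
          congr 1
          ring
  have hD1R : (1 : ℝ) ≤ D := by exact_mod_cast hfd1
  have hPR : (2 : ℝ) ≤ P := by exact_mod_cast hP
  have hQR : (1 : ℝ) ≤ Q := by exact_mod_cast hQ
  have hdQR : (D : ℝ) * Q ≤ κ * P := by exact_mod_cast hdQ
  have hexpQ : ((D : ℝ) + 2 * δ) * Q ≤ κ * (1 + 2 * δ) * P := by
    have h1 : ((D : ℝ) + 2 * δ) * Q ≤ (1 + 2 * δ) * (D * Q) := by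
      have h2 : 0 ≤ (D - 1 : ℝ) * δ * Q := by
        apply mul_nonneg (mul_nonneg (by linarith) hδ0.le) (by linarith)
      nlinarith
    calc ((D : ℝ) + 2 * δ) * Q ≤ (1 + 2 * δ) * (D * Q) := h1
      _ ≤ (1 + 2 * δ) * (κ * P) := mul_le_mul_of_nonneg_left hdQR (by linarith)
      _ = _ := by ring
  have hnQR : (n : ℝ) ^ Q ≤ (m : ℝ) ^ (κ * (1 + 2 * δ) * P) := by
    calc (n : ℝ) ^ Q ≤ ((m : ℝ) ^ ((D : ℝ) + 2 * δ)) ^ Q :=
          pow_le_pow_left₀ (Nat.cast_nonneg _) hnR Q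
      _ = (m : ℝ) ^ (((D : ℝ) + 2 * δ) * Q) := by
          rw [← Real.rpow_natCast, ← Real.rpow_mul hm0R.le]
      _ ≤ _ := hmpow _ _ hexpQ
  have hnQθ : (n : ℝ) ^ Q ≤ (m : ℝ) ^ (θ * P) := by
    refine hnQR.trans (hmpow _ _ ?_)
    rw [hθ]
    gcongr
  have hnQ2 : (n ^ Q) ^ 2 ≤ m ^ ((2 * κ + 1) * P) := by
    have h1 : ((n : ℝ) ^ Q) ^ 2 ≤ (m : ℝ) ^ (((2 * κ + 1) * P : ℕ) : ℝ) := by
      calc ((n : ℝ) ^ Q) ^ 2 ≤ ((m : ℝ) ^ (κ * (1 + 2 * δ) * P)) ^ 2 :=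
            pow_le_pow_left₀ (by positivity) hnQR 2
        _ = (m : ℝ) ^ (κ * (1 + 2 * δ) * P * 2) := by
            rw [← Real.rpow_natCast, ← Real.rpow_mul hm0R.le]
            norm_num
        _ ≤ _ := by
            apply hmpow
            push_cast
            have h2 : 4 * (κ : ℝ) * δ * P ≤ P := by
              have h3 : 4 * (κ : ℝ) * δ ≤ 1 := by
                have : 0 ≤ (κ : ℝ) * δ := by positivity
                linarith
              nlinarith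
            nlinarith
    rw [Real.rpow_natCast] at h1
    exact_mod_cast h1
  have hδ5 : 2 * δ ≤ 1 := by nlinarith
  have hxPR : (x : ℝ) ^ P ≤ (m : ℝ) ^ ((1 + δ) * P) := by
    calc (x : ℝ) ^ P ≤ ((m : ℝ) ^ (1 + δ)) ^ P := pow_le_pow_left₀ (Nat.cast_nonneg _) hxm P
      _ = _ := by rw [← Real.rpow_natCast, ← Real.rpow_mul hm0R.le]
  have hxP2 : (x ^ P) ^ 2 ≤ m ^ ((2 * κ + 1) * P) := by
    have h1 : ((x : ℝ) ^ P) ^ 2 ≤ (m : ℝ) ^ (((2 * κ + 1) * P : ℕ) : ℝ) := by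
      calc ((x : ℝ) ^ P) ^ 2 ≤ ((m : ℝ) ^ ((1 + δ) * P)) ^ 2 :=
            pow_le_pow_left₀ (by positivity) hxPR 2
        _ = (m : ℝ) ^ ((1 + δ) * P * 2) := by
            rw [← Real.rpow_natCast, ← Real.rpow_mul hm0R.le]
            norm_num
        _ ≤ _ := by
            apply hmpow
            push_cast
            have h2 : (1 + δ) * 2 ≤ 2 * (κ : ℝ) + 1 := by linarith
            nlinarith
    rw [Real.rpow_natCast] at h1
    exact_mod_cast h1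
  have hsum2 : (x ^ P + n ^ Q) ^ 2 ≤ 4 * m ^ ((2 * κ + 1) * P) := by
    have h1 : (x ^ P + n ^ Q) ^ 2 ≤ 2 * (x ^ P) ^ 2 + 2 * (n ^ Q) ^ 2 := by
      zify
      nlinarith [sq_nonneg (((x : ℤ) ^ P) - (n : ℤ) ^ Q)]
    omega
  -- the reduced equation
  obtain ⟨b, s, hs, hbz, hbm, hbl⟩ := reduce (F := F) hl hm3 hmx (by omega) hF0 hnF heq (by
    rcases hzm with h | h
    · exact Or.inl h
    · exact Or.inr h.2)
  by_cases hlQ : l ∣ Q
  · -- `l` divides `Q`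
    obtain ⟨Q', hQ'⟩ := hlQ
    have hlleQ : l ≤ Q := Nat.le_of_dvd (by omega) ⟨Q', hQ'⟩
    obtain ⟨v, hv⟩ : ∃ v : ℤ, v = (F.eval (m : ℤ)) ^ Q' := ⟨_, rfl⟩
    have hvl : v ^ l = (F.eval (m : ℤ)) ^ Q := by rw [hv, ← pow_mul, hQ', mul_comm]
    have hF1 : (m : ℤ) ∣ F.eval (m : ℤ) - 1 := by
      have h1 := congrArg (eval (m : ℤ)) (X_mul_divX_add F)
      rw [hF0, eval_add, eval_mul, eval_X, eval_C] at h1
      rw [← h1, add_sub_cancel_right]
      exact Dvd.intro _ rfl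
    have hv1 : (m : ℤ) ∣ v - 1 := by
      have := hF1.trans (sub_dvd_pow_sub_pow (F.eval (m : ℤ)) 1 Q')
      rw [one_pow] at this
      rw [hv]
      exact this
    have hcopv : IsCoprime (m : ℤ) v := by
      obtain ⟨k, hk⟩ := hv1
      refine ⟨-k, 1, ?_⟩
      linear_combination hk
    have hbv : (m : ℤ) ∣ b - v := by
      have := dvd_sub hbm hv1
      rwa [sub_sub_sub_cancel_right] at this
    have hdiff : b ^ l - v ^ l = s * x ^ P := by rw [hbl, hvl]; ring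
    have hkey := dvd_of_pow_sub_pow (P := P) hl (by
      rcases hzm with h | h
      · exact Or.inr h.1
      · exact Or.inl h.1) hbv hcopv (by
      rw [hdiff]
      exact (pow_dvd_pow_of_dvd (Int.natCast_dvd_natCast.mpr hmx) P).mul_left _)
    have hxZ0 : (x : ℤ) ^ P ≠ 0 := pow_ne_zero _ (by exact_mod_cast hx0.ne')
    have hs0 : s ≠ 0 := by rcases hs with h | h <;> rw [h] <;> norm_num
    have hbv0 : b - v ≠ 0 := by
      intro h
      have h1 : b = v := sub_eq_zero.mp h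
      rw [h1, sub_self] at hdiff
      exact mul_ne_zero hs0 hxZ0 hdiff.symm
    have hvabs : |v| = ((n ^ Q' : ℕ) : ℤ) := by
      rw [hv, abs_pow, hnF]
      push_cast
      rfl
    obtain ⟨U, hU⟩ : ∃ U, U = max z (n ^ Q') := ⟨_, rfl⟩
    have hle : m ^ P ≤ 2 * l * U := by
      have h1 : (m : ℤ) ^ P ≤ |l * (b - v)| := by
        apply Int.le_of_dvd _ ((dvd_abs _ _).mpr hkey)
        apply abs_pos.mpr
        exact mul_ne_zero (by exact_mod_cast hl.ne_zero) hbv0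
      have h2 : |(l : ℤ) * (b - v)| ≤ l * (z + (n ^ Q' : ℕ)) := by
        rw [abs_mul, Nat.abs_cast]
        apply mul_le_mul_of_nonneg_left _ (by positivity)
        refine (abs_sub _ _).trans ?_
        rw [hbz, hvabs]
      have h3 : m ^ P ≤ l * (z + n ^ Q') := by exact_mod_cast h1.trans h2
      have h4 : z ≤ U := by rw [hU]; exact le_max_left _ _
      have h5 : n ^ Q' ≤ U := by rw [hU]; exact le_max_right _ _
      calc m ^ P ≤ l * (z + n ^ Q') := h3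
        _ ≤ l * (U + U) := Nat.mul_le_mul_left _ (add_le_add h4 h5)
        _ = _ := by ring
    have hUl : U ^ l ≤ x ^ P + n ^ Q := by
      rcases le_total z (n ^ Q') with h | h
      · rw [hU, max_eq_right h, ← pow_mul, mul_comm Q' l, ← hQ']
        exact Nat.le_add_left _ _
      · rw [hU, max_eq_left h]
        exact heq.le
    refine no_small hκ (by omega) hκl ?_ hmκ hle ((Nat.pow_le_pow_left hUl 2).trans hsum2)
    calc l ≤ 1 * Q := by omega
      _ ≤ D * Q := Nat.mul_le_mul_right _ hfd1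
      _ ≤ _ := hdQ
  -- `l` does not divide `Q`
  have hlm : ¬ l ∣ m := by
    intro hlm
    rcases hzm with ⟨-, hφ⟩ | ⟨h, -⟩
    · apply hlf
      refine ⟨hlm, ?_⟩
      have h1 := dvd_coeff_one (b := b) hl hlm hmx hφ hlQ hP hF0 hbm hbl
      rw [hFc] at h1
      rcases hu1 with h | h
      · rw [h, one_mul] at h1
        exact h1
      · rw [h, neg_one_mul, dvd_neg] at h1
        exact h1
    · exact h hlm
  have hcop : Nat.Coprime Q l := by
    rw [Nat.coprime_comm]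
    exact (Nat.Prime.coprime_iff_not_dvd hl).mpr hlQ
  have hF1 : (m : ℤ) ∣ F.eval (m : ℤ) - 1 := by
    have h1 := congrArg (eval (m : ℤ)) (X_mul_divX_add F)
    rw [hF0, eval_add, eval_mul, eval_X, eval_C] at h1
    rw [← h1, add_sub_cancel_right]
    exact Dvd.intro _ rfl
  have hnpm : (m : ℤ) ∣ n - 1 ∨ (m : ℤ) ∣ n + 1 := by
    rcases Int.natAbs_eq (F.eval (m : ℤ)) with h | h
    · left
      rw [hnF, ← h]
      exact hF1
    · right
      rw [hnF]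
      rw [h] at hF1
      have := dvd_neg.mpr hF1
      have h2 : (((F.eval (m : ℤ)).natAbs : ℕ) : ℤ) + 1 = -(-(((F.eval (m : ℤ)).natAbs : ℕ) : ℤ) - 1) := by
        ring
      rw [h2]
      exact this
  have hzpm : (m : ℤ) ∣ z - 1 ∨ (m : ℤ) ∣ z + 1 := by
    rcases abs_eq (Nat.cast_nonneg z) |>.mp hbz with h | h
    · left
      rw [← h]
      exact hbm
    · right
      rw [h] at hbm
      have := dvd_neg.mpr hbm
      rwa [neg_sub, sub_neg_eq_add, add_comm] at this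
  -- the bound for `l`
  have hnd1 : n ≤ m ^ (d + 1) := by
    have h1 : (n : ℝ) ≤ (m : ℝ) ^ ((d + 1 : ℕ) : ℝ) := by
      refine hnR.trans (hmpow _ _ ?_)
      push_cast
      have h2 : (D : ℝ) ≤ d := by exact_mod_cast hfd
      nlinarith
    rw [Real.rpow_natCast] at h1
    exact_mod_cast h1
  have hnQκ : n ^ Q ≤ m ^ ((2 * κ + 1) * P) := by
    have h1 : n ^ Q ≤ (n ^ Q) ^ 2 := Nat.le_self_pow two_ne_zero _
    exact h1.trans hnQ2
  have hzl2 : (z ^ l) ^ 2 ≤ 4 * m ^ ((2 * κ + 1) * P) := (Nat.pow_le_pow_left heq.le 2).trans hsum2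
  have hzlκ : z ^ l ≤ m ^ ((2 * κ + 1) * P) := by
    have h1 : (z ^ l) ^ 2 ≤ (m ^ ((2 * κ + 1) * P)) ^ 2 := by
      refine hzl2.trans ?_
      rw [pow_two (m ^ ((2 * κ + 1) * P))]
      apply Nat.mul_le_mul_right
      calc 4 ≤ m := by omega
        _ = m ^ 1 := (pow_one m).symm
        _ ≤ _ := by
            apply Nat.pow_le_pow_right hm0
            have : 0 < (2 * κ + 1) * P := by positivity
            omega
    exact (Nat.pow_le_pow_iff_left two_ne_zero).mp h1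
  have hlR : l ≤ C₀ * (d + 1) := by
    have h1 := hC₀ x n z P Q l m 1 1 (by omega) hmx (by omega) (by omega) one_pos one_pos
      (Nat.coprime_one_left m) (by simp; omega) (by simp; omega)
      (Pool.Agent.K9h9.SR.sq_modEq_of_pm (by simpa using hnpm))
      (Pool.Agent.K9h9.SR.sq_modEq_of_pm (by simpa using hzpm)) (by omega) hl.pos hcop heq (by
        simp only [one_pow, mul_one]
        rw [max_eq_left (by omega)]
        exact hnQκ) (by simpa using hzlκ)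
    simp only [one_pow, mul_one] at h1
    rw [max_eq_left (by omega)] at h1
    have h2 : m ^ l ≤ m ^ (C₀ * (d + 1)) := by
      rw [mul_comm, pow_mul]
      exact h1.trans (Nat.pow_le_pow_left hnd1 C₀)
    exact (Nat.pow_le_pow_iff_right (by omega)).mp h2
  have hlR₀ : l + 2 ≤ R₀ := by omega
  rcases Nat.lt_or_ge P P₂ with hPlt | hPge
  · -- small exponents
    have hQ2 : Q ≤ Q₂ := by
      rw [hQ₂]
      calc Q ≤ D * Q := Nat.le_mul_of_pos_left _ hfd1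
        _ ≤ κ * P := hdQ
        _ ≤ _ := Nat.mul_le_mul_left _ hPlt.le
    obtain ⟨E, hE⟩ := hmx
    have hE0 : 0 < E := by
      rcases Nat.eq_zero_or_pos E with h | h
      · rw [h, mul_zero] at hE
        omega
      · exact h
    have hEW : E ≤ W := by
      rw [hW]
      apply Nat.le_floor
      have h1 : (m : ℝ) * E ≤ m * (m : ℝ) ^ δ := by
        calc (m : ℝ) * E = x := by rw [hE]; push_cast; ring
          _ ≤ (m : ℝ) ^ (1 + δ) := hxm
          _ = _ := by rw [Real.rpow_add hm0R, Real.rpow_one]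
      have h2 := le_of_mul_le_mul_left h1 hm0R
      rw [hS]
      nlinarith
    have hs0 : s ≠ 0 := by rcases hs with h | h <;> rw [h] <;> norm_num
    have hsabs : |s| = 1 := by rcases hs with h | h <;> rw [h] <;> norm_num
    refine digits (W := W) (s := s * (E : ℤ) ^ P) hl hlQ hlm hP hQ
      (mul_ne_zero hs0 (pow_ne_zero _ (by exact_mod_cast hE0.ne'))) (by
        rw [abs_mul, hsabs, one_mul, abs_pow, Nat.abs_cast]
        exact pow_le_pow_left₀ (by positivity) (by exact_mod_cast hEW) P) hF0 (by rw [hFdeg]; exact hfd1)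
      (by rw [hFdeg]; exact hcond) hbm (by
        rw [hbl, hE]
        push_cast
        ring) hW1 hWsum ?_ ?_
    · -- the size of `b`
      rw [hbz]
      have h1 : (2 * l ^ (2 * P) * z) ^ (2 * l) < (m ^ P) ^ (2 * l) := by
        calc (2 * l ^ (2 * P) * z) ^ (2 * l) = (2 * l ^ (2 * P)) ^ (2 * l) * (z ^ l) ^ 2 := by
              rw [mul_pow _ z, ← pow_mul z l 2, mul_comm l 2]
          _ ≤ (2 * R₀ ^ (2 * P₂)) ^ (2 * R₀) * (4 * m ^ ((2 * κ + 1) * P)) := by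
              apply Nat.mul_le_mul _ hzl2
              calc (2 * l ^ (2 * P)) ^ (2 * l) ≤ (2 * R₀ ^ (2 * P₂)) ^ (2 * l) := by
                    apply Nat.pow_le_pow_left
                    apply Nat.mul_le_mul_left
                    calc l ^ (2 * P) ≤ R₀ ^ (2 * P) := Nat.pow_le_pow_left (by omega) _
                      _ ≤ _ := Nat.pow_le_pow_right (by omega) (by omega)
                _ ≤ _ := by
                    apply Nat.pow_le_pow_right _ (by omega)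
                    have : 0 < R₀ ^ (2 * P₂) := by positivity
                    omega
          _ = K₂ * m ^ ((2 * κ + 1) * P) := by rw [hK₂]; ring
          _ < m * m ^ ((2 * κ + 1) * P) := Nat.mul_lt_mul_of_pos_right hmK2 (by positivity)
          _ = m ^ ((2 * κ + 1) * P + 1) := by ring
          _ ≤ m ^ (P * (2 * l)) := by
              apply Nat.pow_le_pow_right hm0
              have h2 : (2 * κ + 2) * P ≤ (2 * l) * P := Nat.mul_le_mul_right _ (by omega)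
              have h3 : (2 * κ + 2) * P = (2 * κ + 1) * P + P := by ring
              have h4 : P * (2 * l) = (2 * l) * P := mul_comm _ _
              omega
          _ = _ := by rw [pow_mul]
      have h2 := lt_of_pow_lt_pow_left₀ _ (Nat.zero_le _) h1
      exact_mod_cast h2
    · -- the coefficients
      refine lt_of_le_of_lt ?_ hWEN
      have hWpos : 0 < W := hW1
      have h1 : WB P Q l W ≤ (P₂ * (P₂ * (R₀ ^ (2 * P₂) * 2 ^ Q₂))) * W ^ P₂ := by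
        rw [WB]
        calc P * (P * (l ^ (2 * P) * 2 ^ Q * W ^ P)) ≤
              P₂ * (P₂ * (R₀ ^ (2 * P₂) * 2 ^ Q₂ * W ^ P₂)) := by
              apply Nat.mul_le_mul hPlt.le
              apply Nat.mul_le_mul hPlt.le
              apply Nat.mul_le_mul
              · apply Nat.mul_le_mul
                · calc l ^ (2 * P) ≤ R₀ ^ (2 * P) := Nat.pow_le_pow_left (by omega) _
                    _ ≤ _ := Nat.pow_le_pow_right (by omega) (by omega)
                · exact Nat.pow_le_pow_right (by norm_num) hQ2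
              · exact Nat.pow_le_pow_right hWpos hPlt.le
          _ = _ := by ring
      have h2 : (WB P Q l W) ^ l ≤ (P₂ * (P₂ * (R₀ ^ (2 * P₂) * 2 ^ Q₂))) ^ R₀ * W ^ E₁ := by
        calc (WB P Q l W) ^ l ≤ ((P₂ * (P₂ * (R₀ ^ (2 * P₂) * 2 ^ Q₂))) * W ^ P₂) ^ l :=
              Nat.pow_le_pow_left h1 _
          _ ≤ ((P₂ * (P₂ * (R₀ ^ (2 * P₂) * 2 ^ Q₂))) * W ^ P₂) ^ R₀ := by
              apply Nat.pow_le_pow_right _ (by omega)
              positivity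
          _ = (P₂ * (P₂ * (R₀ ^ (2 * P₂) * 2 ^ Q₂))) ^ R₀ * W ^ (P₂ * R₀) := by
              rw [mul_pow, ← pow_mul W]
          _ ≤ _ := by
              apply Nat.mul_le_mul_left
              exact Nat.pow_le_pow_right hWpos (by omega)
      have h3 : l ^ (2 * P * l) * (W ^ P + W ^ Q) ≤ 2 * R₀ ^ (2 * P₂ * R₀) * W ^ E₁ := by
        have h4 : l ^ (2 * P * l) ≤ R₀ ^ (2 * P₂ * R₀) := by
          calc l ^ (2 * P * l) ≤ R₀ ^ (2 * P * l) := Nat.pow_le_pow_left (by omega) _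
            _ ≤ _ := by
              apply Nat.pow_le_pow_right (by omega)
              exact Nat.mul_le_mul (by omega) (by omega)
        have h5 : W ^ P + W ^ Q ≤ 2 * W ^ E₁ := by
          have h6 : W ^ Q ≤ W ^ E₁ := Nat.pow_le_pow_right hWpos (by omega)
          have h7 : W ^ P ≤ W ^ E₁ := by
            apply Nat.pow_le_pow_right hWpos
            have h8 : P₂ ≤ P₂ * R₀ := Nat.le_mul_of_pos_right _ (by omega)
            omega
          omega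
        calc l ^ (2 * P * l) * (W ^ P + W ^ Q) ≤ R₀ ^ (2 * P₂ * R₀) * (2 * W ^ E₁) := Nat.mul_le_mul h4 h5
          _ = _ := by ring
      calc (WB P Q l W) ^ l + l ^ (2 * P * l) * (W ^ P + W ^ Q) ≤
            (P₂ * (P₂ * (R₀ ^ (2 * P₂) * 2 ^ Q₂))) ^ R₀ * W ^ E₁ + 2 * R₀ ^ (2 * P₂ * R₀) * W ^ E₁ :=
            add_le_add h2 h3
        _ = K₁ * W ^ E₁ := by rw [hK₁]; ring
  · -- large exponents
    obtain ⟨L, hL⟩ : ∃ L, L = (l - 1) / κ + 1 := ⟨_, rfl⟩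
    have hκL : κ * (L - 1) ≤ l - 1 := by
      rw [hL, Nat.add_sub_cancel]
      exact Nat.mul_div_le _ _
    have hDL : 2 * D ≤ L := by
      have h1 : 2 * D - 1 ≤ (l - 1) / κ := by
        rw [Nat.le_div_iff_mul_le (by omega), mul_comm]
        omega
      omega
    have hLl : L ≤ l := by
      have h1 : (l - 1) / κ ≤ l - 1 := Nat.div_le_self _ _
      omega
    have hL2 : L - 2 + 2 = L := by omega
    have hB := hsr (L - 2) x n z P Q l m 1 1 n ((hD₁ _ (by omega)).trans hmD)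
      ((hP₁ _ (by omega)).trans hPge) hl (by omega) hlQ hlm hmx (by omega) (by omega) one_pos
      one_pos (Nat.coprime_one_left m) (by simpa using hnpm) (by simpa using hzpm)
      (by simp; omega) (by simp; omega) heq (by simp; omega) hnQθ (Or.inr ⟨rfl, by
        simp only [Nat.cast_one, one_pow, mul_one]
        refine hxPR.trans (hmpow _ _ ?_)
        apply mul_le_mul_of_nonneg_right _ (by positivity)
        rw [hθ]
        nlinarith⟩)
    rw [hL2] at hB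
    have h1 := hB.trans hnR
    have h2 := (Real.rpow_le_rpow_left_iff hm1R).mp h1
    refine gap_real (L := L) (l := l) (d := D) (R := R₀) (θ := θ) (κ := κ) (ε := ε) (δ := δ) hR₀R
      (by exact_mod_cast (show 2 ≤ L by omega)) (by exact_mod_cast hLl)
      (by exact_mod_cast (show l ≤ R₀ by omega)) (by exact_mod_cast hDL) hθ ?_ hε hδ1 (by linarith) h2
    have h3 : κ * (L - 1) + 1 ≤ l := by omega
    have h4 : ((κ * (L - 1) + 1 : ℕ) : ℝ) ≤ (l : ℕ) := by exact_mod_cast h3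
    push_cast [Nat.cast_sub (show 1 ≤ L by omega)] at h4
    linarith

end Pool.Agent.K9h9.PB
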